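import Mathlib
import Pool.Agent.Y113.MT.Stm

/-!
# The dimension of the space of monodromy relations
-/

set_option autoImplicit false

open Matrix

namespace Pool.Agent.Y155.MT

open Pool.Agent.Y113.MT

variable {F : Type} [Field F]

/-- row `i + 1` of a matrix which commutes with `N` -/
theorem row_succ {n : ℕ} {A : Matrix (Fin n) (Fin n) F} (hA : A * NN F n = NN F n * A)
    (i j : Fin n) (hi : (i : ℕ) + 1 < n) :
    A ⟨i + 1, hi⟩ j = ∑ l, A i l * NN F n l j := by
  have h1 : (NN F n * A) i j = A ⟨i + 1, hi⟩ j := by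
    rw [Matrix.mul_apply, Finset.sum_eq_single ⟨i + 1, hi⟩]
    · simp [NN]
    · intro b _ hb
      have : (b : ℕ) ≠ i + 1 := fun h => hb (Fin.ext h)
      simp [NN, this]
    · simp
  rw [← h1, ← hA, Matrix.mul_apply]

theorem eq_zero_of_row {n : ℕ} {A : Matrix (Fin n) (Fin n) F} (hA : A * NN F n = NN F n * A)
    (h0 : ∀ (hn : 0 < n) (j : Fin n), A ⟨0, hn⟩ j = 0) : A = 0 := by
  have key : ∀ (i : ℕ) (hi : i < n) (j : Fin n), A ⟨i, hi⟩ j = 0 := by
    intro i
    induction i with
    | zero => exact fun hi j => h0 hi j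
    | succ i ih =>
      intro hi j
      have hi' : i < n := by omega
      have h1 := row_succ hA ⟨i, hi'⟩ j hi
      rw [h1]
      exact Finset.sum_eq_zero fun l _ => by rw [ih hi' l, zero_mul]
  ext i j
  exact key i i.2 j

theorem pow_row {n : ℕ} (hn : 0 < n) (k : ℕ) (hk : k < n) (j : Fin n) :
    (NN F n ^ k) ⟨0, hn⟩ j = if (j : ℕ) = k then 1 else 0 := by
  induction k generalizing j with
  | zero =>
    rw [pow_zero, Matrix.one_apply]
    by_cases h : (j : ℕ) = 0
    · rw [if_pos h, if_pos (Fin.ext h.symm)]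
    · rw [if_neg h, if_neg fun h' => h (congrArg Fin.val h'.symm)]
  | succ k ih =>
    have hk' : k < n := by omega
    rw [pow_succ, Matrix.mul_apply, Finset.sum_eq_single ⟨k, hk'⟩]
    · rw [ih hk', if_pos rfl, one_mul]
      simp [NN]
    · intro b _ hb
      have : (b : ℕ) ≠ k := fun h => hb (Fin.ext h)
      rw [ih hk', if_neg this, zero_mul]
    · simp

/-- the main computation -/
theorem main_zero [CharZero F] {m : ℕ} (hm : 1 ≤ m) (J W : Matrix (Fin (2 * m)) (Fin (2 * m)) F)
    (hJ : J.det ≠ 0) (hNJ : (NN F (2 * m))ᵀ * J = -(J * NN F (2 * m)))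
    (hW : W * NN F (2 * m) = NN F (2 * m) * W) (hWJ : Wᵀ * J + J * W = 0)
    (hodd : ∀ l : Fin m, W ⟨0, by omega⟩ ⟨2 * l + 1, by omega⟩ = 0) : W = 0 := by
  have hn : 0 < 2 * m := by omega
  set N := NN F (2 * m) with hN
  let z : Fin (2 * m) → F := fun k => W ⟨0, hn⟩ k
  have hcomm : ∀ k : ℕ, N ^ k * N = N * N ^ k := fun k => by rw [← pow_succ, ← pow_succ']
  -- `W` is a polynomial in `N`
  have hrow : ∀ (c : Fin (2 * m) → F) (j : Fin (2 * m)),
      (∑ k : Fin (2 * m), c k • N ^ (k : ℕ)) ⟨0, hn⟩ j = c j := by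
    intro c j
    rw [Matrix.sum_apply, Finset.sum_eq_single j]
    · rw [Matrix.smul_apply, pow_row hn j j.2, if_pos rfl, smul_eq_mul, mul_one]
    · intro b _ hb
      rw [Matrix.smul_apply, pow_row hn b b.2, if_neg fun h => hb (Fin.ext h.symm), smul_zero]
    · simp
  have hWz : W = ∑ k : Fin (2 * m), z k • N ^ (k : ℕ) := by
    rw [← sub_eq_zero]
    refine eq_zero_of_row ?_ ?_
    · rw [Matrix.sub_mul, Matrix.mul_sub, hW, Matrix.sum_mul, Matrix.mul_sum]
      congr 1
      refine Finset.sum_congr rfl fun k _ => ?_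
      rw [Matrix.smul_mul, Matrix.mul_smul, hcomm]
    · intro hn' j
      rw [Matrix.sub_apply, hrow]
      exact sub_self _
  have hpow : ∀ k : ℕ, (N ^ k)ᵀ * J = (-1 : F) ^ k • (J * N ^ k) := by
    intro k
    induction k with
    | zero => simp
    | succ k ih =>
      rw [pow_succ', Matrix.transpose_mul, Matrix.mul_assoc, hNJ, Matrix.mul_neg,
        ← Matrix.mul_assoc, ih, Matrix.smul_mul, Matrix.mul_assoc, hcomm, pow_succ (-1 : F),
        mul_neg_one, neg_smul]
  have hsum : J * ∑ k : Fin (2 * m), (z k * ((-1) ^ (k : ℕ) + 1)) • N ^ (k : ℕ) = 0 := by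
    rw [← hWJ]
    conv_rhs => rw [hWz]
    rw [Matrix.transpose_sum, Matrix.sum_mul, Matrix.mul_sum, Matrix.mul_sum,
      ← Finset.sum_add_distrib]
    refine Finset.sum_congr rfl fun k _ => ?_
    rw [Matrix.transpose_smul, Matrix.smul_mul, hpow, Matrix.mul_smul, Matrix.mul_smul, smul_smul,
      ← add_smul]
    congr 1
    ring
  have hsum' : ∑ k : Fin (2 * m), (z k * ((-1) ^ (k : ℕ) + 1)) • N ^ (k : ℕ) = 0 := by
    have hu : IsUnit J.det := isUnit_iff_ne_zero.2 hJ
    have h1 : J⁻¹ * (J * ∑ k : Fin (2 * m), (z k * ((-1) ^ (k : ℕ) + 1)) • N ^ (k : ℕ)) = 0 := by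
      rw [hsum, Matrix.mul_zero]
    rwa [← Matrix.mul_assoc, Matrix.nonsing_inv_mul J hu, Matrix.one_mul] at h1
  have hz : ∀ j, z j = 0 := by
    intro j
    have h1 : z j * ((-1) ^ (j : ℕ) + 1) = 0 := by
      rw [← hrow (fun k => z k * ((-1) ^ (k : ℕ) + 1)) j, hsum']
      rfl
    rcases Nat.even_or_odd (j : ℕ) with h | ⟨l, hl⟩
    · rw [h.neg_one_pow] at h1
      have h2 : (1 : F) + 1 ≠ 0 := by norm_num
      exact (mul_eq_zero.1 h1).resolve_right h2
    · have hlm : l < m := by
        have := j.2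
        omega
      have h2 := hodd ⟨l, hlm⟩
      have h3 : j = ⟨2 * l + 1, by omega⟩ := Fin.ext hl
      rw [h3]
      exact h2
  rw [hWz]
  exact Finset.sum_eq_zero fun k _ => by rw [hz, zero_smul]

theorem eb : S_EB := by
  intro F _ _ m hm J hJ hNJ V hV
  have hn : 0 < 2 * m := by omega
  have hn1 : 1 < 2 * m := by omega
  obtain ⟨i0, j0, hij⟩ : ∃ i0 j0, J i0 j0 ≠ 0 := by
    by_contra hcon
    push Not at hcon
    apply hJ
    have : J = 0 := by
      ext i j
      exact hcon i j
    have hne : Nonempty (Fin (2 * m)) := ⟨⟨0, hn⟩⟩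
    rw [this]
    exact Matrix.det_zero
  let Φ : V →ₗ[F] F × F × (Fin m → F) :=
    { toFun := fun W => ((W.1 * NN F (2 * m) - NN F (2 * m) * W.1) ⟨0, hn⟩ ⟨1, hn1⟩,
        (W.1ᵀ * J + J * W.1) i0 j0, fun l => W.1 ⟨0, hn⟩ ⟨2 * l + 1, by omega⟩)
      map_add' := fun A B => by
        refine Prod.ext ?_ (Prod.ext ?_ ?_)
        · simp only [Submodule.coe_add, Matrix.add_mul, Matrix.mul_add, Matrix.sub_apply,
            Matrix.add_apply, Prod.fst_add]
          ring
        · simp only [Submodule.coe_add, Matrix.add_mul, Matrix.mul_add, Matrix.transpose_add,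
            Matrix.add_apply, Prod.fst_add, Prod.snd_add]
          ring
        · funext l
          simp only [Submodule.coe_add, Matrix.add_apply, Prod.snd_add, Pi.add_apply]
      map_smul' := fun r A => by
        refine Prod.ext ?_ (Prod.ext ?_ ?_)
        · simp only [Submodule.coe_smul, Matrix.smul_mul, Matrix.mul_smul, Matrix.sub_apply,
            Matrix.smul_apply, smul_eq_mul, Prod.smul_fst, RingHom.id_apply]
          ring
        · simp only [Submodule.coe_smul, Matrix.smul_mul, Matrix.mul_smul, Matrix.transpose_smul,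
            Matrix.add_apply, Matrix.smul_apply, smul_eq_mul, Prod.smul_fst, Prod.smul_snd,
            RingHom.id_apply]
          ring
        · funext l
          simp only [Submodule.coe_smul, Matrix.smul_apply, Prod.smul_snd, Pi.smul_apply,
            RingHom.id_apply] }
  have hinj : Function.Injective Φ := by
    rw [injective_iff_map_eq_zero]
    rintro ⟨W, hWV⟩ h0
    obtain ⟨⟨a, ha⟩, c, hc⟩ := hV W hWV
    have h1 : (W * NN F (2 * m) - NN F (2 * m) * W) ⟨0, hn⟩ ⟨1, hn1⟩ = 0 := congrArg Prod.fst h0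
    have h2 : (Wᵀ * J + J * W) i0 j0 = 0 := congrArg (fun x => x.2.1) h0
    have h3 : ∀ l : Fin m, W ⟨0, hn⟩ ⟨2 * l + 1, by omega⟩ = 0 := fun l =>
      congrFun (congrArg (fun x => x.2.2) h0) l
    have ha0 : a = 0 := by
      rw [ha] at h1
      simpa [NN] using h1
    have hc0 : c = 0 := by
      rw [hc, Matrix.smul_apply, smul_eq_mul] at h2
      exact (mul_eq_zero.1 h2).resolve_right hij
    rw [ha0, zero_smul, sub_eq_zero] at ha
    rw [hc0, zero_smul] at hc
    exact Subtype.ext (main_zero hm J W hJ hNJ ha hc h3)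
  have h := LinearMap.finrank_le_finrank_of_injective hinj
  have h1 : Module.finrank F (F × F × (Fin m → F)) = m + 2 := by
    rw [Module.finrank_prod, Module.finrank_prod, Module.finrank_self, Module.finrank_fin_fun]
    omega
  rwa [h1] at h

end Pool.Agent.Y155.MT
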