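import Mathlib
import Pool.Agent.Y113.MT.Stm

/-!
# Gram matrices of definite hermitian forms
-/

set_option autoImplicit false

open Matrix

namespace Pool.Agent.Y155.MT

open Pool.Agent.Y113.MT

theorem trace_self {F : Type} [Field F] (σ : F →+* F) {n : ℕ} (X : Matrix (Fin n) (Fin n) F) :
    Matrix.trace (X * (X.map σ)ᵀ) = ∑ x : Fin n × Fin n, X x.1 x.2 * σ (X x.1 x.2) := by
  rw [Matrix.trace, Fintype.sum_prod_type]
  refine Finset.sum_congr rfl fun i _ => ?_
  rw [Matrix.diag_apply, Matrix.mul_apply]
  rfl

theorem fin : S_FIN := by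
  intro F _ σ hσ n p ξ hξ c
  let T : (Fin p → F) →ₗ[F] (Fin p → F) :=
    { toFun := fun a j => Matrix.trace ((∑ i, a i • ξ i) * ((ξ j).map σ)ᵀ)
      map_add' := fun a b => by
        funext j
        simp only [Pi.add_apply, add_smul, Finset.sum_add_distrib, Matrix.add_mul,
          Matrix.trace_add]
      map_smul' := fun r a => by
        funext j
        simp only [Pi.smul_apply, smul_eq_mul, RingHom.id_apply, mul_smul, ← Finset.smul_sum,
          Matrix.smul_mul, Matrix.trace_smul] }
  have hinj : Function.Injective T := by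
    rw [injective_iff_map_eq_zero]
    intro a ha
    set X := ∑ i, a i • ξ i with hX
    have h1 : X.map σ = ∑ j, σ (a j) • (ξ j).map σ := by
      ext x y
      simp only [hX, Matrix.map_apply, Matrix.sum_apply, Matrix.smul_apply, smul_eq_mul, map_sum,
        map_mul]
    have h2 : Matrix.trace (X * (X.map σ)ᵀ) = 0 := by
      rw [h1, Matrix.transpose_sum, Matrix.mul_sum, Matrix.trace_sum]
      refine Finset.sum_eq_zero fun j _ => ?_
      rw [Matrix.transpose_smul, Matrix.mul_smul, Matrix.trace_smul]
      have h3 : Matrix.trace (X * ((ξ j).map σ)ᵀ) = 0 := congrFun ha j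
      rw [h3, smul_zero]
    rw [trace_self] at h2
    have h4 := hσ (Fin n × Fin n) (fun x => X x.1 x.2) h2
    have h5 : X = 0 := by
      ext x y
      exact h4 (x, y)
    funext i
    exact Fintype.linearIndependent_iff.1 hξ a h5 i
  obtain ⟨a, ha⟩ := LinearMap.injective_iff_surjective.1 hinj c
  exact ⟨a, fun j => congrFun ha j⟩

end Pool.Agent.Y155.MT
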